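import Pool.Agent.Y807.KV.T65

/-!
# Mutually orthogonal Knut Vik designs (MP_4d47e8_co): three designs of order n

`K(n) ≥ 3` for every `n ≥ 5` with `gcd(n, 6) = 1` such that the exponent of `5` in `n` is even, or
`n` is divisible by `13`.
In particular there are three pairwise orthogonal Knut Vik designs of the orders
`65`, `455`, `715` and `1625`, where the linear designs (and the products) give only two. The
starting file has the case of an even exponent. The new base case is the order `65 = 5 * 13`; the
functions were found by a computer search (functions commuting with the multiplier `57` of order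
four, and permuted cyclically by the multiplier `16` of order three), and the product construction
of the starting file does the rest.
-/

set_option autoImplicit false

namespace Pool.Agent.Results.MP_4d47e8_co.ThreeDesigns

open Pool.Agent.Results.MP_4d47e8_co.BeyondLinear Pool.Agent.Y807.KV

/-- A factorisation `n = 5 ^ v * m` with `m` coprime to `30`. -/
theorem factor (n : ℕ) (hn : n.Coprime 6) :
    ∃ m, n = 5 ^ padicValNat 5 n * m ∧ m.Coprime 30 := by
  have h0 : n ≠ 0 := by
    rintro rfl
    norm_num at hn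
  obtain ⟨m, hm⟩ : 5 ^ padicValNat 5 n ∣ n := pow_padicValNat_dvd
  refine ⟨m, hm, ?_⟩
  have h5 : ¬ 5 ∣ m := by
    rintro ⟨k, rfl⟩
    have h : 5 ^ (padicValNat 5 n + 1) ∣ n := ⟨k, by
      conv_lhs => rw [hm]
      ring⟩
    haveI : Fact (Nat.Prime 5) := ⟨by norm_num⟩
    exact pow_succ_padicValNat_not_dvd h0 h
  have h6 : m.Coprime 6 := Nat.Coprime.coprime_dvd_left ⟨_, by rw [mul_comm]; exact hm⟩ hn
  have h5' : m.Coprime 5 := ((Nat.Prime.coprime_iff_not_dvd (by norm_num)).2 h5).symm
  have : m.Coprime (5 * 6) := Nat.Coprime.mul_right h5' h6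
  simpa using this

theorem step (q p a m : ℕ) (hq : Sys q 3) (hq0 : 0 < q) (hqp : q = 5 * p) (hp : p ∣ m)
    (hm : m.Coprime 30) : Sys (5 ^ (2 * a + 1) * m) 3 := by
  obtain ⟨m', rfl⟩ := hp
  have hm' : m'.Coprime 30 := Nat.Coprime.coprime_mul_left hm
  have h1 : Sys (q * m') 3 := Sys.prod hq0 hq (Sys.linear3 hm')
  have h2 : Sys (25 ^ a * (q * m')) 3 := Sys.pow (by norm_num) sys25 h1 a
  have e : 5 ^ (2 * a + 1) * (p * m') = 25 ^ a * (q * m') := by
    rw [hqp, pow_succ, pow_mul]
    norm_num
    ring
  rw [e]
  exact h2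

theorem dvd_cof {n v m p : ℕ} (hp : p.Prime) (h5 : p ≠ 5) (h : n = 5 ^ v * m) (hn : p ∣ n) :
    p ∣ m := by
  rw [h] at hn
  rcases (Nat.Prime.dvd_mul hp).1 hn with h1 | h1
  · exact absurd ((Nat.prime_dvd_prime_iff_eq hp (by norm_num)).1 (hp.dvd_of_dvd_pow h1)) h5
  · exact h1

/-- **Three pairwise orthogonal Knut Vik designs** of every order `n` coprime to `6` such that the
exponent of `5` in `n` is even, or `n` is divisible by `13`. -/
theorem result (n : ℕ) (hn : n.Coprime 6)
    (h : Even (padicValNat 5 n) ∨ 13 ∣ n) : HasKV n 3 := by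
  have h0 : 0 < n := by
    rcases Nat.eq_zero_or_pos n with rfl | h0
    · norm_num at hn
    · exact h0
  obtain ⟨m, hm, hc⟩ := factor n hn
  refine Sys.hasKV h0 ?_
  rcases Nat.even_or_odd' (padicValNat 5 n) with ⟨a, ha | ha⟩
  · have e : n = 25 ^ a * m := by
      rw [ha, pow_mul] at hm
      simpa using hm
    rw [e]
    exact Sys.pow (by norm_num) sys25 (Sys.linear3 hc) a
  · have hodd : ¬ Even (padicValNat 5 n) := by
      rw [Nat.not_even_iff_odd]
      exact ⟨a, ha⟩
    rw [ha] at hm
    rcases h with h | h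
    · exact absurd h hodd
    · rw [hm]
      exact step 65 13 a m sys65 (by norm_num) (by norm_num)
        (dvd_cof (by norm_num) (by norm_num) hm h) hc

end Pool.Agent.Results.MP_4d47e8_co.ThreeDesigns
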